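import Pool.Agent.Helper57.CH.Frames
import Pool.Agent.Helper7.SC.Main
import Pool.Agent.Helper99.SC.Pars

set_option autoImplicit false

/-!
StG: the main inequality for an arbitrary trigonometric kernel and an arbitrary noise.
-/

namespace Pool.Agent.Helper8.CH

open Finset
open Pool.Agent.Helper7.SC (e nuhat Ecyc F Hs rho sh)
open Pool.Agent.Helper57.CH
open Pool.Agent.Helper99.SC (e_zero e_add e_sum e_conj e_int orth F_eq comm4 split4 norm_e stA3)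

/-- the coefficients of the real part -/
noncomputable def cs (c : ℤ → ℂ) (h : ℤ) : ℂ := (c h + (starRingEnd ℂ) (c (-h))) / 2

lemma re_eq (H : ℕ) (c : ℤ → ℂ) (y : ℝ) :
    (((∑ h ∈ Icc (-(H : ℤ)) H, c h * e (h * y)).re : ℝ) : ℂ) =
      ∑ h ∈ Icc (-(H : ℤ)) H, cs c h * e (h * y) := by
  have h1 : ∑ h ∈ Icc (-(H : ℤ)) H, (starRingEnd ℂ) (c h * e (h * y)) =
      ∑ h ∈ Icc (-(H : ℤ)) H, (starRingEnd ℂ) (c (-h)) * e (h * y) := by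
    refine sum_nbij' (fun k => -k) (fun k => -k) ?_ ?_ ?_ ?_ ?_
    · intro k hk
      simp only [mem_Icc] at hk ⊢
      omega
    · intro k hk
      simp only [mem_Icc] at hk ⊢
      omega
    · intro k _
      simp
    · intro k _
      simp
    · intro k _
      rw [map_mul, e_conj, neg_neg]
      congr 2
      push_cast
      ring
  rw [Complex.re_eq_add_conj, map_sum, h1, ← sum_add_distrib, sum_div]
  refine sum_congr rfl fun h _ => ?_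
  unfold cs
  ring

lemma cs_norm {H : ℕ} {Δ : ℝ} {c : ℤ → ℂ} (h0 : (c 0).re = 1)
    (hc : ∀ h : ℤ, h ≠ 0 → ‖c h‖ ≤ Δ / (2 * H)) (h : ℤ) :
    ‖cs c h‖ ≤ if h = 0 then 1 else Δ / (2 * H) := by
  unfold cs
  split_ifs with hh
  · subst hh
    rw [neg_zero, ← Complex.re_eq_add_conj, h0]
    simp
  · have h1 : ‖c h + (starRingEnd ℂ) (c (-h))‖ ≤ ‖c h‖ + ‖c (-h)‖ := by
      have h2 := norm_add_le (c h) ((starRingEnd ℂ) (c (-h)))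
      rwa [Complex.norm_conj] at h2
    have h3 := hc h hh
    have h4 := hc (-h) (by simpa using hh)
    rw [norm_div, show ‖(2 : ℂ)‖ = 2 by simp]
    linarith

lemma prod_norm {m H : ℕ} {Δ : ℝ} {c : ℤ → ℂ} (h0 : (c 0).re = 1)
    (hc : ∀ h : ℤ, h ≠ 0 → ‖c h‖ ≤ Δ / (2 * H)) (h : Fin m → ℤ) :
    ‖∏ B, cs c (h B)‖ ≤ rho H Δ h := by
  unfold rho
  rw [norm_prod]
  exact prod_le_prod (fun _ _ => norm_nonneg _) fun B _ => cs_norm h0 hc _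

lemma ker_eq (b q r m K H : ℕ) (hb : 2 ≤ b) (hK : r + m * q ≤ K) (c : ℤ → ℂ) (d : ℝ) :
    ((∏ B : Fin m, (∑ h ∈ Icc (-(H : ℤ)) H,
        c h * e (h * (d / (b : ℝ) ^ (r + (B + 1) * q)))).re : ℝ) : ℂ) =
      ∑ h ∈ Hs m H, (∏ B, cs c (h B)) * e (d * ((sh b q r K h : ℝ) / (b : ℝ) ^ K)) := by
  have hb0 : (b : ℝ) ≠ 0 := by positivity
  rw [Complex.ofReal_prod]
  simp only [re_eq]
  rw [Finset.prod_univ_sum]
  unfold Hs
  refine sum_congr rfl fun h _ => ?_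
  rw [prod_mul_distrib, ← e_sum]
  congr 2
  unfold sh
  push_cast
  rw [sum_div, mul_sum]
  refine sum_congr rfl fun B _ => ?_
  have h1 : r + ((B : ℕ) + 1) * q ≤ K := by
    have h2 : ((B : ℕ) + 1) * q ≤ m * q := Nat.mul_le_mul_right q B.2
    omega
  have h3 : (b : ℝ) ^ K = (b : ℝ) ^ (K - (r + ((B : ℕ) + 1) * q)) *
      (b : ℝ) ^ (r + ((B : ℕ) + 1) * q) := by
    rw [← pow_add, Nat.sub_add_cancel h1]
  rw [h3]
  field_simp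

theorem stG : StG := by
  intro b q r m K H p Δ η hb hK hH hQ hΔ hp hp2 hη hη1 hL c hc0 hc s hs S
  have hx : 0 < b ^ K := by positivity
  have hxR : (0 : ℝ) < (b : ℝ) ^ K := by positivity
  choose t ht0 ht1 ht using hs
  have h1 : ∀ (ξ : Fin K → ℤ) (a a' c₁ c₁' : ℕ), (b : ℂ) ^ K *
      ((if (((a : ℤ) + a' + zz b ξ : ℤ) : ZMod (b ^ K)) = (((c₁ : ℤ) + c₁' : ℤ) : ZMod (b ^ K)) then
      ∏ B : Fin m, (∑ h ∈ Icc (-(H : ℤ)) H,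
        c h * e (h * (((a : ℝ) - c₁) / (b : ℝ) ^ (r + (B + 1) * q)))).re else 0 : ℝ) : ℂ)
      = ∑ j ∈ range (b ^ K), ∑ h ∈ Hs m H,
        (e ((zz b ξ : ℤ) * (((j : ℤ) : ℝ) / (b : ℝ) ^ K)) * ∏ B, cs c (h B)) *
        (e (((a : ℝ) - c₁) * (((j + sh b q r K h : ℤ) : ℝ) / ((b ^ K : ℕ) : ℝ))) *
          e (((a' : ℝ) - c₁') * (((j : ℤ) : ℝ) / ((b ^ K : ℕ) : ℝ)))) := by
    intro ξ a a' c₁ c₁'
    have h2 : (b : ℂ) ^ K *
      ((if (((a : ℤ) + a' + zz b ξ : ℤ) : ZMod (b ^ K)) = (((c₁ : ℤ) + c₁' : ℤ) : ZMod (b ^ K)) then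
      ∏ B : Fin m, (∑ h ∈ Icc (-(H : ℤ)) H,
        c h * e (h * (((a : ℝ) - c₁) / (b : ℝ) ^ (r + (B + 1) * q)))).re else 0 : ℝ) : ℂ) =
      (∑ j ∈ range (b ^ K), e (j * ((((a : ℤ) + a' + zz b ξ - (c₁ + c₁') : ℤ) : ℝ) /
        ((b ^ K : ℕ) : ℝ)))) * ((∏ B : Fin m, (∑ h ∈ Icc (-(H : ℤ)) H,
        c h * e (h * (((a : ℝ) - c₁) / (b : ℝ) ^ (r + (B + 1) * q)))).re : ℝ) : ℂ) := by
      rw [orth _ hx]
      have h3 : (((a : ℤ) + a' + zz b ξ - (c₁ + c₁') : ℤ) : ZMod (b ^ K)) = 0 ↔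
          (((a : ℤ) + a' + zz b ξ : ℤ) : ZMod (b ^ K)) = (((c₁ : ℤ) + c₁' : ℤ) : ZMod (b ^ K)) := by
        rw [Int.cast_sub, sub_eq_zero]
      by_cases h4 : (((a : ℤ) + a' + zz b ξ : ℤ) : ZMod (b ^ K)) =
          (((c₁ : ℤ) + c₁' : ℤ) : ZMod (b ^ K))
      · rw [if_pos h4, if_pos (h3.mpr h4)]
        push_cast
        ring
      · rw [if_neg h4, if_neg (fun h5 => h4 (h3.mp h5))]
        simp
    rw [h2, ker_eq b q r m K H hb hK, sum_mul_sum]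
    refine sum_congr rfl fun j _ => sum_congr rfl fun h _ => ?_
    have h5 : ∀ u v₁ v₂ v₃ w : ℂ, u = v₁ * v₂ * v₃ → u * w = v₁ * w * (v₂ * v₃) := by
      intro u v₁ v₂ v₃ w h
      rw [h]
      ring
    have h6 : e (j * ((((a : ℤ) + a' + zz b ξ - (c₁ + c₁') : ℤ) : ℝ) / ((b ^ K : ℕ) : ℝ))) *
        e (((a : ℝ) - c₁) * ((sh b q r K h : ℝ) / (b : ℝ) ^ K)) =
        e ((zz b ξ : ℤ) * (((j : ℤ) : ℝ) / (b : ℝ) ^ K)) *
        e (((a : ℝ) - c₁) * (((j + sh b q r K h : ℤ) : ℝ) / ((b ^ K : ℕ) : ℝ))) *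
          e (((a' : ℝ) - c₁') * (((j : ℤ) : ℝ) / ((b ^ K : ℕ) : ℝ))) := by
      rw [← e_add, ← e_add, ← e_add]
      congr 1
      push_cast
      ring
    rw [mul_left_comm, mul_comm (∏ B, cs c (h B)), h6]
    ring
  have h4 : ∀ ξ : Fin K → ℤ, (b : ℂ) ^ K * ((∑ a ∈ S, ∑ a' ∈ S, ∑ c₁ ∈ S, ∑ c₁' ∈ S,
      (if (((a : ℤ) + a' + zz b ξ : ℤ) : ZMod (b ^ K)) = (((c₁ : ℤ) + c₁' : ℤ) : ZMod (b ^ K)) then
      ∏ B : Fin m, (∑ h ∈ Icc (-(H : ℤ)) H,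
        c h * e (h * (((a : ℝ) - c₁) / (b : ℝ) ^ (r + (B + 1) * q)))).re else 0) : ℝ) : ℂ) =
      ∑ j ∈ range (b ^ K), ∑ h ∈ Hs m H,
        (e ((zz b ξ : ℤ) * (((j : ℤ) : ℝ) / (b : ℝ) ^ K)) * ∏ B, cs c (h B)) *
        ((F (b ^ K) S (j + sh b q r K h) : ℂ) * (F (b ^ K) S j : ℂ)) := by
    intro ξ
    have h5 : (b : ℂ) ^ K * ((∑ a ∈ S, ∑ a' ∈ S, ∑ c₁ ∈ S, ∑ c₁' ∈ S,
      (if (((a : ℤ) + a' + zz b ξ : ℤ) : ZMod (b ^ K)) = (((c₁ : ℤ) + c₁' : ℤ) : ZMod (b ^ K)) then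
      ∏ B : Fin m, (∑ h ∈ Icc (-(H : ℤ)) H,
        c h * e (h * (((a : ℝ) - c₁) / (b : ℝ) ^ (r + (B + 1) * q)))).re else 0) : ℝ) : ℂ) =
      ∑ a ∈ S, ∑ a' ∈ S, ∑ c₁ ∈ S, ∑ c₁' ∈ S, ∑ j ∈ range (b ^ K), ∑ h ∈ Hs m H,
        (e ((zz b ξ : ℤ) * (((j : ℤ) : ℝ) / (b : ℝ) ^ K)) * ∏ B, cs c (h B)) *
        (e (((a : ℝ) - c₁) * (((j + sh b q r K h : ℤ) : ℝ) / ((b ^ K : ℕ) : ℝ))) *
          e (((a' : ℝ) - c₁') * (((j : ℤ) : ℝ) / ((b ^ K : ℕ) : ℝ)))) := by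
      rw [Complex.ofReal_sum, mul_sum]
      refine sum_congr rfl fun a _ => ?_
      rw [Complex.ofReal_sum, mul_sum]
      refine sum_congr rfl fun a' _ => ?_
      rw [Complex.ofReal_sum, mul_sum]
      refine sum_congr rfl fun c₁ _ => ?_
      rw [Complex.ofReal_sum, mul_sum]
      refine sum_congr rfl fun c₁' _ => ?_
      exact h1 ξ a a' c₁ c₁'
    rw [h5, comm4]
    refine sum_congr rfl fun j _ => ?_
    rw [comm4]
    refine sum_congr rfl fun h _ => ?_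
    rw [F_eq, F_eq]
    exact split4 S _
      (fun a c => e (((a : ℝ) - c) * (((j + sh b q r K h : ℤ) : ℝ) / ((b ^ K : ℕ) : ℝ))))
      (fun a' c' => e (((a' : ℝ) - c') * (((j : ℤ) : ℝ) / ((b ^ K : ℕ) : ℝ))))
  set L : ℝ := ∑ ξ ∈ states K, prob s ξ * ∑ a ∈ S, ∑ a' ∈ S, ∑ c₁ ∈ S, ∑ c₁' ∈ S,
    (if (((a : ℤ) + a' + zz b ξ : ℤ) : ZMod (b ^ K)) = (((c₁ : ℤ) + c₁' : ℤ) : ZMod (b ^ K)) then
      ∏ B : Fin m, (∑ h ∈ Icc (-(H : ℤ)) H,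
        c h * e (h * (((a : ℝ) - c₁) / (b : ℝ) ^ (r + (B + 1) * q)))).re else 0) with hLd
  have key : (((b : ℝ) ^ K * L : ℝ) : ℂ) = ∑ j ∈ range (b ^ K), (t j : ℂ) * ∑ h ∈ Hs m H,
      (∏ B, cs c (h B)) * ((F (b ^ K) S (j + sh b q r K h) : ℂ) * (F (b ^ K) S j : ℂ)) := by
    rw [hLd, Complex.ofReal_mul, Complex.ofReal_pow, Complex.ofReal_natCast, Complex.ofReal_sum,
      mul_sum]
    have h6 : ∀ ξ ∈ states K, (b : ℂ) ^ K * ((prob s ξ * ∑ a ∈ S, ∑ a' ∈ S, ∑ c₁ ∈ S, ∑ c₁' ∈ S,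
      (if (((a : ℤ) + a' + zz b ξ : ℤ) : ZMod (b ^ K)) = (((c₁ : ℤ) + c₁' : ℤ) : ZMod (b ^ K)) then
      ∏ B : Fin m, (∑ h ∈ Icc (-(H : ℤ)) H,
        c h * e (h * (((a : ℝ) - c₁) / (b : ℝ) ^ (r + (B + 1) * q)))).re else 0) : ℝ) : ℂ) =
      ∑ j ∈ range (b ^ K), ((prob s ξ : ℂ) * e ((zz b ξ : ℤ) * (((j : ℤ) : ℝ) / (b : ℝ) ^ K))) *
        ∑ h ∈ Hs m H,
      (∏ B, cs c (h B)) * ((F (b ^ K) S (j + sh b q r K h) : ℂ) * (F (b ^ K) S j : ℂ)) := by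
      intro ξ _
      rw [Complex.ofReal_mul, mul_left_comm, h4 ξ, mul_sum]
      refine sum_congr rfl fun j _ => ?_
      rw [mul_sum, mul_sum]
      refine sum_congr rfl fun h _ => ?_
      ring
    rw [sum_congr rfl h6, sum_comm]
    refine sum_congr rfl fun j _ => ?_
    rw [← sum_mul, ht]
  have hF : ∀ j : ℤ, 0 ≤ F (b ^ K) S j := fun j => sq_nonneg _
  have hbd : (b : ℝ) ^ K * L ≤ ∑ j ∈ range (b ^ K), nuhat b q r m K p j *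
      ∑ h ∈ Hs m H, rho H Δ h * (F (b ^ K) S j * F (b ^ K) S (j + sh b q r K h)) := by
    calc (b : ℝ) ^ K * L ≤ ‖(((b : ℝ) ^ K * L : ℝ) : ℂ)‖ := by
          rw [Complex.norm_real]
          exact le_abs_self _
      _ ≤ ∑ j ∈ range (b ^ K), nuhat b q r m K p j *
      ∑ h ∈ Hs m H, rho H Δ h * (F (b ^ K) S j * F (b ^ K) S (j + sh b q r K h)) := by
          rw [key]
          refine (norm_sum_le _ _).trans (sum_le_sum fun j _ => ?_)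
          rw [norm_mul, Complex.norm_real, Real.norm_eq_abs, abs_of_nonneg (ht0 j)]
          refine mul_le_mul (ht1 j) ?_ (norm_nonneg _) ((ht0 j).trans (ht1 j))
          refine (norm_sum_le _ _).trans (sum_le_sum fun h _ => ?_)
          rw [norm_mul, norm_mul, Complex.norm_real, Complex.norm_real, Real.norm_eq_abs,
            Real.norm_eq_abs, abs_of_nonneg (hF _), abs_of_nonneg (hF _)]
          rw [mul_comm (F (b ^ K) S (j + sh b q r K h))]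
          exact mul_le_mul_of_nonneg_right (prod_norm hc0 hc h) (mul_nonneg (hF _) (hF _))
  have hA := Pool.Agent.Helper7.SC.stA1 b q r m K H p Δ η hb hK hH hQ hΔ hp hp2 hη hη1 hL S
  have hP := stA3 (b ^ K) hx S
  rw [← hP] at hA
  have hfin : (b : ℝ) ^ K * L ≤ (b : ℝ) ^ K * ((1 + 4 * Δ * η) ^ m * Ecyc (b ^ K) S) := by
    refine (hbd.trans hA).trans (le_of_eq ?_)
    push_cast
    ring
  exact le_of_mul_le_mul_left hfin hxR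

end Pool.Agent.Helper8.CH
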