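import Pool.Agent.Helper57.CH.Frames3
import Pool.Agent.Helper8.CH.StG

set_option autoImplicit false

/-!
StG4: the main inequality for one character of `(a, a', d)`.
-/

namespace Pool.Agent.Helper8.CH

open Finset
open Pool.Agent.Helper7.SC (e nuhat Ecyc F Hs rho sh sum_shift F_add)
open Pool.Agent.Helper57.CH
open Pool.Agent.Helper99.SC (e_zero e_add e_sum e_conj e_int orth comm4 norm_e stA3 nuhat_nonneg
  nuhat_le_one)

/-- the exponential sum -/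
noncomputable def T (x : ℕ) (S : Finset ℕ) (j : ℤ) : ℂ := ∑ a ∈ S, e (a * (j / x))

lemma F_T (x : ℕ) (S : Finset ℕ) (j : ℤ) : F x S j = ‖T x S j‖ ^ 2 := rfl

/-- the weight `c ^ #{B | g_B ≠ 0}` -/
noncomputable def wtc {m : ℕ} (c : ℝ) (g : Fin m → ℤ) : ℝ := ∏ B, if g B = 0 then 1 else c

lemma wtc_nonneg {m : ℕ} {c : ℝ} (hc : 0 ≤ c) (g : Fin m → ℤ) : 0 ≤ wtc c g := by
  unfold wtc
  refine prod_nonneg fun B _ => ?_
  split_ifs
  · exact zero_le_one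
  · exact hc

lemma wtc_pos {m : ℕ} {c : ℝ} (hc : 0 < c) (g : Fin m → ℤ) : 0 < wtc c g := by
  unfold wtc
  refine prod_pos fun B _ => ?_
  split_ifs
  · exact zero_lt_one
  · exact hc

lemma wtc_mul {m : ℕ} (c d : ℝ) (g : Fin m → ℤ) : wtc c g * wtc d g = wtc (c * d) g := by
  unfold wtc
  rw [← prod_mul_distrib]
  refine prod_congr rfl fun B _ => ?_
  split_ifs
  · rw [one_mul]
  · rfl

lemma sum_wtc (m : ℕ) (c : ℝ) : ∑ g ∈ Hs m 1, wtc c g = (1 + 2 * c) ^ m := by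
  have h1 := Finset.prod_univ_sum (fun _ : Fin m => Icc (-((1 : ℕ) : ℤ)) ((1 : ℕ) : ℤ))
    (fun _ h => if h = 0 then (1 : ℝ) else c)
  unfold Hs wtc
  rw [← h1]
  have h2 : ∑ h ∈ Icc (-((1 : ℕ) : ℤ)) ((1 : ℕ) : ℤ), (if h = 0 then (1 : ℝ) else c) =
      1 + 2 * c := by
    have h3 : Icc (-((1 : ℕ) : ℤ)) ((1 : ℕ) : ℤ) = {-1, 0, 1} := by decide
    rw [h3, sum_insert (by decide), sum_insert (by decide), sum_singleton]
    norm_num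
    ring
  simp only [h2, prod_const, card_univ, Fintype.card_fin]

lemma dil (m H : ℕ) (κ : ℤ) (hκ : κ ≠ 0) (hκH : |κ| ≤ H) (f : (Fin m → ℤ) → ℝ)
    (hf : ∀ h, 0 ≤ f h) :
    ∑ g ∈ Hs m 1, f (fun B => κ * g B) ≤ ∑ h ∈ Hs m H, f h := by
  have hinj : Set.InjOn (fun (g : Fin m → ℤ) (B : Fin m) => κ * g B) (Hs m 1 : Set (Fin m → ℤ)) := by
    intro g _ g' _ h
    funext B
    exact mul_left_cancel₀ hκ (congrFun h B)
  rw [← sum_image (f := f) hinj]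
  refine sum_le_sum_of_subset_of_nonneg ?_ (fun h _ _ => hf h)
  intro h hh
  rw [mem_image] at hh
  obtain ⟨g, hg, rfl⟩ := hh
  unfold Hs at hg ⊢
  rw [Fintype.mem_piFinset] at hg ⊢
  intro B
  have h0 := hg B
  rw [mem_Icc] at h0 ⊢
  have h1 : |g B| ≤ 1 := abs_le.mpr ⟨by exact_mod_cast h0.1, by exact_mod_cast h0.2⟩
  have h2 : |κ * g B| ≤ H := by
    rw [abs_mul]
    calc |κ| * |g B| ≤ |κ| * 1 := mul_le_mul_of_nonneg_left h1 (abs_nonneg _)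
      _ = |κ| := mul_one _
      _ ≤ H := hκH
  exact abs_le.mp h2

lemma rho_dil {m : ℕ} (H : ℕ) (Δ : ℝ) (κ : ℤ) (hκ : κ ≠ 0) (g : Fin m → ℤ) :
    rho H Δ (fun B => κ * g B) = wtc (Δ / (2 * H)) g := by
  unfold rho wtc
  refine prod_congr rfl fun B _ => ?_
  simp only [mul_eq_zero, hκ, false_or]

lemma sh_dil (b q r K : ℕ) {m : ℕ} (κ : ℤ) (g : Fin m → ℤ) :
    sh b q r K (fun B => κ * g B) = κ * sh b q r K g := by
  unfold sh
  rw [mul_sum]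
  refine sum_congr rfl fun B _ => ?_
  ring

lemma amgm {W R u v : ℝ} (hW : 0 ≤ W) (hR : 0 < R) :
    W * (u * v) ≤ 1 / 2 * (W * R * u ^ 2) + 1 / 2 * (W * R⁻¹ * v ^ 2) := by
  have h1 : 0 ≤ W * (R⁻¹ * (R * u - v) ^ 2) := by positivity
  have h2 : W * (R⁻¹ * (R * u - v) ^ 2) = W * R * u ^ 2 - 2 * (W * (u * v)) + W * R⁻¹ * v ^ 2 := by
    field_simp
    ring
  linarith

lemma wtc_inv {m : ℕ} {c : ℝ} (hc : 0 < c) (g : Fin m → ℤ) : (wtc c g)⁻¹ = wtc c⁻¹ g := by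
  have h1 := wtc_mul c c⁻¹ g
  have h2 : wtc (c * c⁻¹) g = 1 := by
    rw [mul_inv_cancel₀ hc.ne']
    unfold wtc
    simp
  rw [h2] at h1
  exact inv_eq_of_mul_eq_one_right h1

lemma core (b q r m K H : ℕ) (p Δ η τ ρ : ℝ) (hb : 2 ≤ b) (hK : r + m * q ≤ K) (hH : 1 ≤ H)
    (hQ : 2 * H < b ^ q) (hΔ : 0 < Δ) (hp : 0 < p) (hp2 : p ≤ 1 / 2) (hη : η = 8 * Δ / p)
    (hη1 : η ≤ 1) (hL : Real.exp (8 * Real.pi * H / ((b : ℝ) ^ q * η)) ≤ 2) (hτ : 0 < τ)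
    (hρ : 1 ≤ ρ) (hD : Δ = H * τ * ρ) (κ α β : ℤ) (hκ : κ ≠ 0) (hκH : |κ| ≤ H) (S : Finset ℕ) :
    ∑ j ∈ range (b ^ K), nuhat b q r m K p j * ∑ g ∈ Hs m 1, wtc (τ / 2) g *
      ((‖T (b ^ K) S j‖ * ‖T (b ^ K) S (j + κ * sh b q r K g)‖) *
        (‖T (b ^ K) S (j + α * sh b q r K g)‖ * ‖T (b ^ K) S (j + β * sh b q r K g)‖)) ≤
      ((1 + 4 * Δ * η) ^ m + (1 + τ / ρ) ^ m) * ∑ j ∈ range (b ^ K), F (b ^ K) S j ^ 2 := by
  have hρ0 : 0 < ρ := by linarith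
  have hx : 0 < b ^ K := by positivity
  have hF : ∀ j : ℤ, 0 ≤ F (b ^ K) S j := fun j => sq_nonneg _
  have hnn : ∀ j : ℤ, 0 ≤ nuhat b q r m K p j := fun j => nuhat_nonneg hp.le (by linarith) j
  have hn1 : ∀ j : ℤ, nuhat b q r m K p j ≤ 1 := fun j => nuhat_le_one hb hp.le (by linarith) j
  have hHR : (0 : ℝ) < H := by exact_mod_cast (by omega : 0 < H)
  -- termwise
  have h1 : ∀ (j : ℤ) (g : Fin m → ℤ), wtc (τ / 2) g *
      ((‖T (b ^ K) S j‖ * ‖T (b ^ K) S (j + κ * sh b q r K g)‖) *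
        (‖T (b ^ K) S (j + α * sh b q r K g)‖ * ‖T (b ^ K) S (j + β * sh b q r K g)‖)) ≤
      1 / 2 * (wtc (Δ / (2 * H)) g * (F (b ^ K) S j * F (b ^ K) S (j + κ * sh b q r K g))) +
      1 / 2 * (wtc (τ / 2 * ρ⁻¹) g * (F (b ^ K) S (j + α * sh b q r K g) *
        F (b ^ K) S (j + β * sh b q r K g))) := by
    intro j g
    have h2 := amgm (u := ‖T (b ^ K) S j‖ * ‖T (b ^ K) S (j + κ * sh b q r K g)‖)
      (v := ‖T (b ^ K) S (j + α * sh b q r K g)‖ * ‖T (b ^ K) S (j + β * sh b q r K g)‖)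
      (wtc_nonneg (by positivity : (0 : ℝ) ≤ τ / 2) g) (wtc_pos hρ0 g)
    have h3 : τ / 2 * ρ = Δ / (2 * H) := by
      rw [hD]
      field_simp
    rw [wtc_inv hρ0, wtc_mul, wtc_mul, h3] at h2
    rw [F_T, F_T, F_T, F_T]
    refine h2.trans (le_of_eq ?_)
    ring
  have h2 : ∑ j ∈ range (b ^ K), nuhat b q r m K p j * ∑ g ∈ Hs m 1, wtc (τ / 2) g *
      ((‖T (b ^ K) S j‖ * ‖T (b ^ K) S (j + κ * sh b q r K g)‖) *
        (‖T (b ^ K) S (j + α * sh b q r K g)‖ * ‖T (b ^ K) S (j + β * sh b q r K g)‖)) ≤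
      1 / 2 * (∑ j ∈ range (b ^ K), nuhat b q r m K p j * ∑ g ∈ Hs m 1,
        wtc (Δ / (2 * H)) g * (F (b ^ K) S j * F (b ^ K) S (j + κ * sh b q r K g))) +
      1 / 2 * (∑ j ∈ range (b ^ K), nuhat b q r m K p j * ∑ g ∈ Hs m 1,
        wtc (τ / 2 * ρ⁻¹) g * (F (b ^ K) S (j + α * sh b q r K g) *
        F (b ^ K) S (j + β * sh b q r K g))) := by
    rw [mul_sum, mul_sum, ← sum_add_distrib]
    refine sum_le_sum fun j _ => ?_
    refine (mul_le_mul_of_nonneg_left (sum_le_sum fun g _ => h1 j g) (hnn j)).trans (le_of_eq ?_)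
    rw [sum_add_distrib, ← mul_sum, ← mul_sum]
    ring
  -- the first sum
  have h3 : ∑ j ∈ range (b ^ K), nuhat b q r m K p j * ∑ g ∈ Hs m 1,
        wtc (Δ / (2 * H)) g * (F (b ^ K) S j * F (b ^ K) S (j + κ * sh b q r K g)) ≤
      (1 + 4 * Δ * η) ^ m * ∑ j ∈ range (b ^ K), F (b ^ K) S j ^ 2 := by
    have hA := Pool.Agent.Helper7.SC.stA1 b q r m K H p Δ η hb hK hH hQ hΔ hp hp2 hη hη1 hL S
    refine le_trans (sum_le_sum fun j _ => ?_) hA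
    refine mul_le_mul_of_nonneg_left ?_ (hnn j)
    have hd := dil m H κ hκ hκH (fun h => rho H Δ h * (F (b ^ K) S j *
      F (b ^ K) S (j + sh b q r K h))) (fun h => by
        have h4 : 0 ≤ rho H Δ h := by
          unfold rho
          refine prod_nonneg fun B _ => ?_
          split_ifs
          · exact zero_le_one
          · positivity
        exact mul_nonneg h4 (mul_nonneg (hF _) (hF _)))
    simp only [rho_dil H Δ κ hκ, sh_dil] at hd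
    exact hd
  -- the second sum
  have hper : ∀ c : ℤ, ∑ j ∈ range (b ^ K), F (b ^ K) S (j + c) ^ 2 =
      ∑ j ∈ range (b ^ K), F (b ^ K) S j ^ 2 := fun c =>
    sum_shift (b ^ K) (fun j => F (b ^ K) S j ^ 2) (fun j => by rw [F_add _ hx]) c
  have hc0 : (0 : ℝ) ≤ τ / 2 * ρ⁻¹ := by positivity
  have h4 : ∑ j ∈ range (b ^ K), nuhat b q r m K p j * ∑ g ∈ Hs m 1,
        wtc (τ / 2 * ρ⁻¹) g * (F (b ^ K) S (j + α * sh b q r K g) *
        F (b ^ K) S (j + β * sh b q r K g)) ≤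
      (1 + τ / ρ) ^ m * ∑ j ∈ range (b ^ K), F (b ^ K) S j ^ 2 := by
    have h5 : ∑ j ∈ range (b ^ K), nuhat b q r m K p j * ∑ g ∈ Hs m 1,
        wtc (τ / 2 * ρ⁻¹) g * (F (b ^ K) S (j + α * sh b q r K g) *
        F (b ^ K) S (j + β * sh b q r K g)) ≤
        ∑ j ∈ range (b ^ K), ∑ g ∈ Hs m 1, wtc (τ / 2 * ρ⁻¹) g *
          (1 / 2 * F (b ^ K) S (j + α * sh b q r K g) ^ 2 +
            1 / 2 * F (b ^ K) S (j + β * sh b q r K g) ^ 2) := by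
      refine sum_le_sum fun j _ => ?_
      have h6 : 0 ≤ ∑ g ∈ Hs m 1, wtc (τ / 2 * ρ⁻¹) g * (F (b ^ K) S (j + α * sh b q r K g) *
        F (b ^ K) S (j + β * sh b q r K g)) :=
        sum_nonneg fun g _ => mul_nonneg (wtc_nonneg hc0 g) (mul_nonneg (hF _) (hF _))
      refine (mul_le_of_le_one_left h6 (hn1 j)).trans (sum_le_sum fun g _ => ?_)
      refine mul_le_mul_of_nonneg_left ?_ (wtc_nonneg hc0 g)
      have := sq_nonneg (F (b ^ K) S (j + α * sh b q r K g) - F (b ^ K) S (j + β * sh b q r K g))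
      nlinarith
    refine h5.trans (le_of_eq ?_)
    rw [sum_comm]
    have h7 : ∀ g ∈ Hs m 1, ∑ j ∈ range (b ^ K), wtc (τ / 2 * ρ⁻¹) g *
          (1 / 2 * F (b ^ K) S (j + α * sh b q r K g) ^ 2 +
            1 / 2 * F (b ^ K) S (j + β * sh b q r K g) ^ 2) =
        wtc (τ / 2 * ρ⁻¹) g * ∑ j ∈ range (b ^ K), F (b ^ K) S j ^ 2 := by
      intro g _
      rw [← mul_sum, sum_add_distrib, ← mul_sum, ← mul_sum, hper, hper]
      ring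
    rw [sum_congr rfl h7, ← sum_mul, sum_wtc]
    congr 2
    field_simp
  have hFs : 0 ≤ ∑ j ∈ range (b ^ K), F (b ^ K) S j ^ 2 := sum_nonneg fun _ _ => sq_nonneg _
  have hη0 : 0 ≤ η := by
    rw [hη]
    positivity
  have g1 : 0 ≤ (1 + 4 * Δ * η) ^ m * ∑ j ∈ range (b ^ K), F (b ^ K) S j ^ 2 := by positivity
  have g2 : 0 ≤ (1 + τ / ρ) ^ m * ∑ j ∈ range (b ^ K), F (b ^ K) S j ^ 2 := by positivity
  linarith

/-- the coefficients of `1 + τ Re (o e(y))` -/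
noncomputable def co (τ : ℝ) (o : ℂ) (h : ℤ) : ℂ := if h = 0 then 1 else if h = 1 then τ * o else 0

lemma co_re (τ : ℝ) (o : ℂ) (y : ℝ) :
    (∑ h ∈ Icc (-((1 : ℕ) : ℤ)) ((1 : ℕ) : ℤ), co τ o h * e (h * y)).re =
      1 + τ * (o * e y).re := by
  have h3 : Icc (-((1 : ℕ) : ℤ)) ((1 : ℕ) : ℤ) = {-1, 0, 1} := by decide
  rw [h3, sum_insert (by decide), sum_insert (by decide), sum_singleton]
  have e1 : co τ o (-1) = 0 := by simp [co]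
  have e2 : co τ o 0 = 1 := by simp [co]
  have e3 : co τ o 1 = τ * o := by simp [co]
  rw [e1, e2, e3]
  simp only [Int.cast_zero, zero_mul, e_zero, Int.cast_one, one_mul, zero_add, mul_one]
  rw [Complex.add_re, Complex.one_re, mul_assoc, Complex.re_ofReal_mul]

lemma cs_co {τ : ℝ} (hτ : 0 < τ) {o : ℂ} (ho : ‖o‖ = 1) (h : ℤ) :
    ‖cs (co τ o) h‖ ≤ if h = 0 then 1 else τ / 2 := by
  unfold cs
  have h2 : ‖(2 : ℂ)‖ = 2 := by simp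
  have hn : ‖(τ : ℂ) * o‖ = τ := by
    rw [norm_mul, ho, mul_one, Complex.norm_real, Real.norm_eq_abs, abs_of_pos hτ]
  by_cases h0 : h = 0
  · subst h0
    simp [co]
  rw [if_neg h0, norm_div, h2]
  by_cases h1 : h = 1
  · subst h1
    have e1 : co τ o (-1) = 0 := by simp [co]
    have e3 : co τ o 1 = τ * o := by simp [co]
    rw [e1, e3, map_zero, add_zero, hn]
  by_cases h3 : h = -1
  · subst h3
    have e1 : co τ o (-1) = 0 := by simp [co]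
    have e3 : co τ o (- -1) = τ * o := by simp [co]
    rw [e1, e3, zero_add, Complex.norm_conj, hn]
  · have e1 : co τ o h = 0 := by simp [co, h0, h1]
    have e2 : co τ o (-h) = 0 := by
      have h4 : -h ≠ 0 := by omega
      have h5 : -h ≠ 1 := by omega
      simp only [co, if_neg h4, if_neg h5]
    rw [e1, e2, map_zero, add_zero, norm_zero, zero_div]
    positivity

lemma prod_co {m : ℕ} {τ : ℝ} (hτ : 0 < τ) {o : ℂ} (ho : ‖o‖ = 1) (h : Fin m → ℤ) :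
    ‖∏ B, cs (co τ o) (h B)‖ ≤ wtc (τ / 2) h := by
  unfold wtc
  rw [norm_prod]
  exact prod_le_prod (fun _ _ => norm_nonneg _) fun B _ => cs_co hτ ho _

lemma split4' (S : Finset ℕ) (k : ℂ) (f g u v : ℕ → ℂ) :
    ∑ a ∈ S, ∑ a' ∈ S, ∑ d ∈ S, ∑ d' ∈ S, k * ((f a * g a') * (u d * v d')) =
      k * (((∑ a ∈ S, f a) * ∑ a ∈ S, g a) * ((∑ d ∈ S, u d) * ∑ d ∈ S, v d)) := by
  have h1 : ∀ a a', ∑ d ∈ S, ∑ d' ∈ S, k * ((f a * g a') * (u d * v d')) =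
      k * ((f a * g a') * ((∑ d ∈ S, u d) * ∑ d ∈ S, v d)) := by
    intro a a'
    rw [sum_mul_sum, mul_sum, mul_sum]
    refine sum_congr rfl fun d _ => ?_
    rw [mul_sum, mul_sum]
  simp only [h1]
  generalize (∑ d ∈ S, u d) * ∑ d ∈ S, v d = W
  rw [sum_mul_sum, sum_mul, mul_sum]
  refine sum_congr rfl fun a _ => ?_
  rw [sum_mul, mul_sum]

theorem stG4 : StG4 := by
  intro b q r m K H p Δ η τ ρ hb hK hH hQ hΔ hp hp2 hη hη1 hL hτ hρ hD k₁ k₂ k₃ hk hk1 hk2 hk3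
    o ho s hs S
  have hx : 0 < b ^ K := by positivity
  have hxR : (0 : ℝ) < (b : ℝ) ^ K := by positivity
  choose t ht0 ht1 ht using hs
  have hker : ∀ a a' d : ℕ, ((∏ B : Fin m, (1 + τ * (o * e (k₁ * ((a : ℝ) /
        (b : ℝ) ^ (r + (B + 1) * q)) + k₂ * ((a' : ℝ) / (b : ℝ) ^ (r + (B + 1) * q)) +
        k₃ * ((d : ℝ) / (b : ℝ) ^ (r + (B + 1) * q)))).re) : ℝ) : ℂ) =
      ∑ h ∈ Hs m 1, (∏ B, cs (co τ o) (h B)) *
        e ((k₁ * (a : ℝ) + k₂ * (a' : ℝ) + k₃ * (d : ℝ)) *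
          ((sh b q r K h : ℝ) / (b : ℝ) ^ K)) := by
    intro a a' d
    rw [← ker_eq b q r m K 1 hb hK (co τ o)]
    congr 1
    refine prod_congr rfl fun B _ => ?_
    rw [co_re]
    congr 5
    ring
  have h1 : ∀ (ξ : Fin K → ℤ) (a a' d d' : ℕ), (b : ℂ) ^ K *
      ((if (((a : ℤ) + a' + zz b ξ : ℤ) : ZMod (b ^ K)) = (((d : ℤ) + d' : ℤ) : ZMod (b ^ K)) then
      ∏ B : Fin m, (1 + τ * (o * e (k₁ * ((a : ℝ) / (b : ℝ) ^ (r + (B + 1) * q)) +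
        k₂ * ((a' : ℝ) / (b : ℝ) ^ (r + (B + 1) * q)) +
        k₃ * ((d : ℝ) / (b : ℝ) ^ (r + (B + 1) * q)))).re) else 0 : ℝ) : ℂ)
      = ∑ j ∈ range (b ^ K), ∑ h ∈ Hs m 1,
        (e ((zz b ξ : ℤ) * (((j : ℤ) : ℝ) / (b : ℝ) ^ K)) * ∏ B, cs (co τ o) (h B)) *
        ((e ((a : ℝ) * (((j + k₁ * sh b q r K h : ℤ) : ℝ) / ((b ^ K : ℕ) : ℝ))) *
          e ((a' : ℝ) * (((j + k₂ * sh b q r K h : ℤ) : ℝ) / ((b ^ K : ℕ) : ℝ)))) *
        ((starRingEnd ℂ) (e ((d : ℝ) * (((j + -k₃ * sh b q r K h : ℤ) : ℝ) /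
          ((b ^ K : ℕ) : ℝ)))) *
          (starRingEnd ℂ) (e ((d' : ℝ) * (((j : ℤ) : ℝ) / ((b ^ K : ℕ) : ℝ)))))) := by
    intro ξ a a' d d'
    have h2 : (b : ℂ) ^ K *
      ((if (((a : ℤ) + a' + zz b ξ : ℤ) : ZMod (b ^ K)) = (((d : ℤ) + d' : ℤ) : ZMod (b ^ K)) then
      ∏ B : Fin m, (1 + τ * (o * e (k₁ * ((a : ℝ) / (b : ℝ) ^ (r + (B + 1) * q)) +
        k₂ * ((a' : ℝ) / (b : ℝ) ^ (r + (B + 1) * q)) +
        k₃ * ((d : ℝ) / (b : ℝ) ^ (r + (B + 1) * q)))).re) else 0 : ℝ) : ℂ) =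
      (∑ j ∈ range (b ^ K), e (j * ((((a : ℤ) + a' + zz b ξ - (d + d') : ℤ) : ℝ) /
        ((b ^ K : ℕ) : ℝ)))) * ((∏ B : Fin m, (1 + τ * (o * e (k₁ * ((a : ℝ) /
        (b : ℝ) ^ (r + (B + 1) * q)) + k₂ * ((a' : ℝ) / (b : ℝ) ^ (r + (B + 1) * q)) +
        k₃ * ((d : ℝ) / (b : ℝ) ^ (r + (B + 1) * q)))).re) : ℝ) : ℂ) := by
      rw [orth _ hx]
      have h3 : (((a : ℤ) + a' + zz b ξ - (d + d') : ℤ) : ZMod (b ^ K)) = 0 ↔
          (((a : ℤ) + a' + zz b ξ : ℤ) : ZMod (b ^ K)) = (((d : ℤ) + d' : ℤ) : ZMod (b ^ K)) := by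
        rw [Int.cast_sub, sub_eq_zero]
      by_cases h4 : (((a : ℤ) + a' + zz b ξ : ℤ) : ZMod (b ^ K)) =
          (((d : ℤ) + d' : ℤ) : ZMod (b ^ K))
      · rw [if_pos h4, if_pos (h3.mpr h4)]
        push_cast
        ring
      · rw [if_neg h4, if_neg (fun h5 => h4 (h3.mp h5))]
        simp
    rw [h2, hker, sum_mul_sum]
    refine sum_congr rfl fun j _ => sum_congr rfl fun h _ => ?_
    have h6 : e (j * ((((a : ℤ) + a' + zz b ξ - (d + d') : ℤ) : ℝ) / ((b ^ K : ℕ) : ℝ))) *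
        e ((k₁ * (a : ℝ) + k₂ * (a' : ℝ) + k₃ * (d : ℝ)) *
          ((sh b q r K h : ℝ) / (b : ℝ) ^ K)) =
        e ((zz b ξ : ℤ) * (((j : ℤ) : ℝ) / (b : ℝ) ^ K)) *
        ((e ((a : ℝ) * (((j + k₁ * sh b q r K h : ℤ) : ℝ) / ((b ^ K : ℕ) : ℝ))) *
          e ((a' : ℝ) * (((j + k₂ * sh b q r K h : ℤ) : ℝ) / ((b ^ K : ℕ) : ℝ)))) *
        ((starRingEnd ℂ) (e ((d : ℝ) * (((j + -k₃ * sh b q r K h : ℤ) : ℝ) /
          ((b ^ K : ℕ) : ℝ)))) *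
          (starRingEnd ℂ) (e ((d' : ℝ) * (((j : ℤ) : ℝ) / ((b ^ K : ℕ) : ℝ)))))) := by
      rw [e_conj, e_conj, ← e_add, ← e_add, ← e_add, ← e_add, ← e_add]
      congr 1
      push_cast
      ring
    rw [mul_left_comm, mul_comm (∏ B, cs (co τ o) (h B)), h6]
    ring
  have h4 : ∀ ξ : Fin K → ℤ, (b : ℂ) ^ K * ((∑ a ∈ S, ∑ a' ∈ S, ∑ d ∈ S, ∑ d' ∈ S,
      (if (((a : ℤ) + a' + zz b ξ : ℤ) : ZMod (b ^ K)) = (((d : ℤ) + d' : ℤ) : ZMod (b ^ K)) then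
      ∏ B : Fin m, (1 + τ * (o * e (k₁ * ((a : ℝ) / (b : ℝ) ^ (r + (B + 1) * q)) +
        k₂ * ((a' : ℝ) / (b : ℝ) ^ (r + (B + 1) * q)) +
        k₃ * ((d : ℝ) / (b : ℝ) ^ (r + (B + 1) * q)))).re) else 0) : ℝ) : ℂ) =
      ∑ j ∈ range (b ^ K), ∑ h ∈ Hs m 1,
        (e ((zz b ξ : ℤ) * (((j : ℤ) : ℝ) / (b : ℝ) ^ K)) * ∏ B, cs (co τ o) (h B)) *
        ((T (b ^ K) S (j + k₁ * sh b q r K h) * T (b ^ K) S (j + k₂ * sh b q r K h)) *
          ((starRingEnd ℂ) (T (b ^ K) S (j + -k₃ * sh b q r K h)) *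
            (starRingEnd ℂ) (T (b ^ K) S j))) := by
    intro ξ
    rw [Complex.ofReal_sum, mul_sum]
    have h5 : ∀ a ∈ S, (b : ℂ) ^ K * ((∑ a' ∈ S, ∑ d ∈ S, ∑ d' ∈ S,
      (if (((a : ℤ) + a' + zz b ξ : ℤ) : ZMod (b ^ K)) = (((d : ℤ) + d' : ℤ) : ZMod (b ^ K)) then
      ∏ B : Fin m, (1 + τ * (o * e (k₁ * ((a : ℝ) / (b : ℝ) ^ (r + (B + 1) * q)) +
        k₂ * ((a' : ℝ) / (b : ℝ) ^ (r + (B + 1) * q)) +
        k₃ * ((d : ℝ) / (b : ℝ) ^ (r + (B + 1) * q)))).re) else 0) : ℝ) : ℂ) =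
      ∑ a' ∈ S, ∑ d ∈ S, ∑ d' ∈ S, ∑ j ∈ range (b ^ K), ∑ h ∈ Hs m 1,
        (e ((zz b ξ : ℤ) * (((j : ℤ) : ℝ) / (b : ℝ) ^ K)) * ∏ B, cs (co τ o) (h B)) *
        ((e ((a : ℝ) * (((j + k₁ * sh b q r K h : ℤ) : ℝ) / ((b ^ K : ℕ) : ℝ))) *
          e ((a' : ℝ) * (((j + k₂ * sh b q r K h : ℤ) : ℝ) / ((b ^ K : ℕ) : ℝ)))) *
        ((starRingEnd ℂ) (e ((d : ℝ) * (((j + -k₃ * sh b q r K h : ℤ) : ℝ) /
          ((b ^ K : ℕ) : ℝ)))) *
          (starRingEnd ℂ) (e ((d' : ℝ) * (((j : ℤ) : ℝ) / ((b ^ K : ℕ) : ℝ)))))) := by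
      intro a _
      rw [Complex.ofReal_sum, mul_sum]
      refine sum_congr rfl fun a' _ => ?_
      rw [Complex.ofReal_sum, mul_sum]
      refine sum_congr rfl fun d _ => ?_
      rw [Complex.ofReal_sum, mul_sum]
      refine sum_congr rfl fun d' _ => ?_
      exact h1 ξ a a' d d'
    rw [sum_congr rfl h5, comm4]
    refine sum_congr rfl fun j _ => ?_
    rw [comm4]
    refine sum_congr rfl fun h _ => ?_
    unfold T
    rw [map_sum, map_sum]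
    exact split4' S _
      (fun a => e ((a : ℝ) * (((j + k₁ * sh b q r K h : ℤ) : ℝ) / ((b ^ K : ℕ) : ℝ))))
      (fun a' => e ((a' : ℝ) * (((j + k₂ * sh b q r K h : ℤ) : ℝ) / ((b ^ K : ℕ) : ℝ))))
      (fun d => (starRingEnd ℂ) (e ((d : ℝ) * (((j + -k₃ * sh b q r K h : ℤ) : ℝ) /
          ((b ^ K : ℕ) : ℝ)))))
      (fun d' => (starRingEnd ℂ) (e ((d' : ℝ) * (((j : ℤ) : ℝ) / ((b ^ K : ℕ) : ℝ)))))
  set L : ℝ := ∑ ξ ∈ states K, prob s ξ * ∑ a ∈ S, ∑ a' ∈ S, ∑ d ∈ S, ∑ d' ∈ S,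
    (if (((a : ℤ) + a' + zz b ξ : ℤ) : ZMod (b ^ K)) = (((d : ℤ) + d' : ℤ) : ZMod (b ^ K)) then
      ∏ B : Fin m, (1 + τ * (o * e (k₁ * ((a : ℝ) / (b : ℝ) ^ (r + (B + 1) * q)) +
        k₂ * ((a' : ℝ) / (b : ℝ) ^ (r + (B + 1) * q)) +
        k₃ * ((d : ℝ) / (b : ℝ) ^ (r + (B + 1) * q)))).re) else 0) with hLd
  have key : (((b : ℝ) ^ K * L : ℝ) : ℂ) = ∑ j ∈ range (b ^ K), (t j : ℂ) * ∑ h ∈ Hs m 1,
      (∏ B, cs (co τ o) (h B)) *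
        ((T (b ^ K) S (j + k₁ * sh b q r K h) * T (b ^ K) S (j + k₂ * sh b q r K h)) *
          ((starRingEnd ℂ) (T (b ^ K) S (j + -k₃ * sh b q r K h)) *
            (starRingEnd ℂ) (T (b ^ K) S j))) := by
    rw [hLd, Complex.ofReal_mul, Complex.ofReal_pow, Complex.ofReal_natCast, Complex.ofReal_sum,
      mul_sum]
    have h6 : ∀ ξ ∈ states K, (b : ℂ) ^ K * ((prob s ξ * ∑ a ∈ S, ∑ a' ∈ S, ∑ d ∈ S, ∑ d' ∈ S,
      (if (((a : ℤ) + a' + zz b ξ : ℤ) : ZMod (b ^ K)) = (((d : ℤ) + d' : ℤ) : ZMod (b ^ K)) then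
      ∏ B : Fin m, (1 + τ * (o * e (k₁ * ((a : ℝ) / (b : ℝ) ^ (r + (B + 1) * q)) +
        k₂ * ((a' : ℝ) / (b : ℝ) ^ (r + (B + 1) * q)) +
        k₃ * ((d : ℝ) / (b : ℝ) ^ (r + (B + 1) * q)))).re) else 0) : ℝ) : ℂ) =
      ∑ j ∈ range (b ^ K), ((prob s ξ : ℂ) * e ((zz b ξ : ℤ) * (((j : ℤ) : ℝ) / (b : ℝ) ^ K))) *
        ∑ h ∈ Hs m 1, (∏ B, cs (co τ o) (h B)) *
        ((T (b ^ K) S (j + k₁ * sh b q r K h) * T (b ^ K) S (j + k₂ * sh b q r K h)) *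
          ((starRingEnd ℂ) (T (b ^ K) S (j + -k₃ * sh b q r K h)) *
            (starRingEnd ℂ) (T (b ^ K) S j))) := by
      intro ξ _
      rw [Complex.ofReal_mul, mul_left_comm, h4 ξ, mul_sum]
      refine sum_congr rfl fun j _ => ?_
      rw [mul_sum, mul_sum]
      refine sum_congr rfl fun h _ => ?_
      ring
    rw [sum_congr rfl h6, sum_comm]
    refine sum_congr rfl fun j _ => ?_
    rw [← sum_mul, ht]
  have hbd : (b : ℝ) ^ K * L ≤ ∑ j ∈ range (b ^ K), nuhat b q r m K p j * ∑ h ∈ Hs m 1,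
      wtc (τ / 2) h *
        ((‖T (b ^ K) S (j + k₁ * sh b q r K h)‖ * ‖T (b ^ K) S (j + k₂ * sh b q r K h)‖) *
          (‖T (b ^ K) S (j + -k₃ * sh b q r K h)‖ * ‖T (b ^ K) S j‖)) := by
    refine (le_abs_self _).trans ?_
    rw [← Real.norm_eq_abs, ← Complex.norm_real, key]
    refine (norm_sum_le _ _).trans (sum_le_sum fun j _ => ?_)
    rw [norm_mul, Complex.norm_real, Real.norm_eq_abs, abs_of_nonneg (ht0 j)]
    refine mul_le_mul (ht1 j) ?_ (norm_nonneg _) ((ht0 j).trans (ht1 j))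
    refine (norm_sum_le _ _).trans (sum_le_sum fun h _ => ?_)
    rw [norm_mul, norm_mul, norm_mul, norm_mul, Complex.norm_conj, Complex.norm_conj]
    exact mul_le_mul_of_nonneg_right (prod_co hτ ho h) (by positivity)
  have hP := stA3 (b ^ K) hx S
  have hfin : (b : ℝ) ^ K * L ≤ (b : ℝ) ^ K *
      (((1 + 4 * Δ * η) ^ m + (1 + τ / ρ) ^ m) * Ecyc (b ^ K) S) := by
    have hcore : ∑ j ∈ range (b ^ K), nuhat b q r m K p j * ∑ h ∈ Hs m 1,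
      wtc (τ / 2) h *
        ((‖T (b ^ K) S (j + k₁ * sh b q r K h)‖ * ‖T (b ^ K) S (j + k₂ * sh b q r K h)‖) *
          (‖T (b ^ K) S (j + -k₃ * sh b q r K h)‖ * ‖T (b ^ K) S j‖)) ≤
        ((1 + 4 * Δ * η) ^ m + (1 + τ / ρ) ^ m) * ∑ j ∈ range (b ^ K), F (b ^ K) S j ^ 2 := by
      by_cases c1 : k₁ = 0
      · by_cases c2 : k₂ = 0
        · have c3 : k₃ ≠ 0 := fun c3 => hk ⟨c1, c2, c3⟩
          refine le_trans (le_of_eq ?_) (core b q r m K H p Δ η τ ρ hb hK hH hQ hΔ hp hp2 hη hη1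
            hL hτ hρ hD (-k₃) k₁ k₂ (neg_ne_zero.mpr c3) (by rwa [abs_neg]) S)
          refine sum_congr rfl fun j _ => ?_
          congr 1
          refine sum_congr rfl fun h _ => ?_
          ring
        · refine le_trans (le_of_eq ?_) (core b q r m K H p Δ η τ ρ hb hK hH hQ hΔ hp hp2 hη hη1
            hL hτ hρ hD k₂ k₁ (-k₃) c2 hk2 S)
          refine sum_congr rfl fun j _ => ?_
          congr 1
          refine sum_congr rfl fun h _ => ?_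
          ring
      · refine le_trans (le_of_eq ?_) (core b q r m K H p Δ η τ ρ hb hK hH hQ hΔ hp hp2 hη hη1
          hL hτ hρ hD k₁ k₂ (-k₃) c1 hk1 S)
        refine sum_congr rfl fun j _ => ?_
        congr 1
        refine sum_congr rfl fun h _ => ?_
        ring
    refine (hbd.trans hcore).trans (le_of_eq ?_)
    rw [← hP]
    push_cast
    ring
  exact le_of_mul_le_mul_left hfin hxR

end Pool.Agent.Helper8.CH
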